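import Pool.Agent.Run7.h181.MP33.AUT3

set_option autoImplicit false

/-! Piece AUT, part 4: the holonomy representation and the final statement. -/

open Run7.h347
open scoped MatrixGroups

namespace Run7.h181.MP33

theorem add_extR {f g : SG → ℝ} (hf : ∀ x y, f (x * y) = f x + f y)
    (hg : ∀ x y, g (x * y) = g x + g y) (hE : f sE = g sE) (hD : f sD = g sD)
    (h1 : f st1 = g st1) (h2 : f st2 = g st2) (x : SG) : f x = g x := by
  have hf1 : f 1 = 0 := by have := hf 1 1; rw [mul_one] at this; linarith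
  have hg1 : g 1 = 0 := by have := hg 1 1; rw [mul_one] at this; linarith
  let F : SG →* Multiplicative ℝ :=
    { toFun := fun x => Multiplicative.ofAdd (f x)
      map_one' := by rw [hf1]; rfl
      map_mul' := fun x y => by rw [hf]; rfl }
  let G : SG →* Multiplicative ℝ :=
    { toFun := fun x => Multiplicative.ofAdd (g x)
      map_one' := by rw [hg1]; rfl
      map_mul' := fun x y => by rw [hg]; rfl }
  have hFG : F = G := hom_ext (congrArg Multiplicative.ofAdd hE) (congrArg Multiplicative.ofAdd hD)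
    (congrArg Multiplicative.ofAdd h1) (congrArg Multiplicative.ofAdd h2)
  have := DFunLike.congr_fun hFG x
  exact Multiplicative.ofAdd.injective this

/-- horizontal holonomy -/
noncomputable def hx (x : SG) : ℝ :=
  Real.goldenRatio * hc (Sum.inr 1) x + (1 + Real.goldenRatio) * hc (Sum.inl 0) x

/-- vertical holonomy -/
noncomputable def hy (x : SG) : ℝ := Real.goldenRatio * hc (Sum.inr 0) x - hc (Sum.inl 1) x

theorem hx_mul (x y : SG) : hx (x * y) = hx x + hx y := by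
  unfold hx; rw [hc_mul, hc_mul]; push_cast; ring

theorem hy_mul (x y : SG) : hy (x * y) = hy x + hy y := by
  unfold hy; rw [hc_mul, hc_mul]; push_cast; ring

theorem hx_one : hx (1 : SG) = 0 := by
  have := hx_mul 1 1; rw [mul_one] at this; linarith

theorem hy_one : hy (1 : SG) = 0 := by
  have := hy_mul 1 1; rw [mul_one] at this; linarith

theorem hx_inv (x : SG) : hx x⁻¹ = - hx x := by
  have := hx_mul x x⁻¹; rw [mul_inv_cancel, hx_one] at this; linarith

theorem hy_inv (x : SG) : hy x⁻¹ = - hy x := by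
  have := hy_mul x x⁻¹; rw [mul_inv_cancel, hy_one] at this; linarith

theorem hxE : hx sE = Real.goldenRatio := by unfold hx; simp [hcE]
theorem hyE : hy sE = 0 := by unfold hy; simp [hcE]
theorem hxF : hx sF = Real.goldenRatio := by unfold hx; simp [hcF]
theorem hyF : hy sF = 0 := by unfold hy; simp [hcF]
theorem hxD : hx sD = 1 := by unfold hx; simp [hcD]
theorem hyD : hy sD = 0 := by unfold hy; simp [hcD]
theorem hx1 : hx st1 = 0 := by unfold hx; simp [hct1]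
theorem hy1 : hy st1 = 1 := by unfold hy; simp [hct1]
theorem hx2 : hx st2 = 0 := by unfold hx; simp [hct2]
theorem hy2 : hy st2 = Real.goldenRatio := by unfold hy; simp [hct2]

/-- `w` acts on the holonomy by `M` -/
def Pr (w : AutPlus 2) (M : SL(2, ℝ)) : Prop :=
  ∀ y : SG, hx ((w : MulAut SG) y) = M.1 0 0 * hx y + M.1 0 1 * hy y ∧
    hy ((w : MulAut SG) y) = M.1 1 0 * hx y + M.1 1 1 * hy y

theorem Pr_unique {w : AutPlus 2} {M M' : SL(2, ℝ)} (h : Pr w M) (h' : Pr w M') : M = M' := by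
  have e1 := h sD
  have e2 := h' sD
  have e3 := h st1
  have e4 := h' st1
  rw [hxD, hyD] at e1 e2
  rw [hx1, hy1] at e3 e4
  apply Subtype.ext
  ext i j
  fin_cases i <;> fin_cases j
  · show M.1 0 0 = M'.1 0 0
    linarith [e1.1, e2.1]
  · show M.1 0 1 = M'.1 0 1
    linarith [e3.1, e4.1]
  · show M.1 1 0 = M'.1 1 0
    linarith [e1.2, e2.2]
  · show M.1 1 1 = M'.1 1 1
    linarith [e3.2, e4.2]

theorem Pr_mul {w w' : AutPlus 2} {M M' : SL(2, ℝ)} (h : Pr w M) (h' : Pr w' M') :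
    Pr (w * w') (M * M') := by
  intro y
  have e := h ((w' : MulAut SG) y)
  have e' := h' y
  rw [e'.1, e'.2] at e
  have hm : ∀ i j, (M * M').1 i j = M.1 i 0 * M'.1 0 j + M.1 i 1 * M'.1 1 j := by
    intro i j
    show (M.1 * M'.1) i j = _
    rw [Matrix.mul_apply, Fin.sum_univ_two]
  rw [hm, hm, hm, hm]
  constructor
  · exact e.1.trans (by ring)
  · exact e.2.trans (by ring)

theorem Pr_one : Pr 1 1 := by
  intro y
  show hx y = (1 : Matrix (Fin 2) (Fin 2) ℝ) 0 0 * hx y + (1 : Matrix (Fin 2) (Fin 2) ℝ) 0 1 * hy y ∧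
    hy y = (1 : Matrix (Fin 2) (Fin 2) ℝ) 1 0 * hx y + (1 : Matrix (Fin 2) (Fin 2) ℝ) 1 1 * hy y
  simp

theorem Pr_inv {w : AutPlus 2} {M : SL(2, ℝ)} (h : Pr w M) : Pr w⁻¹ M⁻¹ := by
  intro y
  have e := h (((w⁻¹ : AutPlus 2) : MulAut SG) y)
  have hw : (w : MulAut SG) (((w⁻¹ : AutPlus 2) : MulAut SG) y) = y :=
    MulAut.apply_inv_self _ (w : MulAut SG) y
  rw [hw] at e
  have hdet : M.1 0 0 * M.1 1 1 - M.1 0 1 * M.1 1 0 = 1 := by
    have := M.2
    rwa [Matrix.det_fin_two] at this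
  have hi : (M⁻¹).1 = !![M.1 1 1, -M.1 0 1; -M.1 1 0, M.1 0 0] := by
    rw [Matrix.SpecialLinearGroup.coe_inv, Matrix.adjugate_fin_two]
  rw [hi]
  simp only [Matrix.of_apply, Matrix.cons_val', Matrix.cons_val_zero, Matrix.cons_val_one,
    Matrix.cons_val_fin_one]
  generalize hx (((w⁻¹ : AutPlus 2) : MulAut SG) y) = a at *
  generalize hy (((w⁻¹ : AutPlus 2) : MulAut SG) y) = b at *
  rw [e.1, e.2]
  constructor
  · linear_combination (-a) * hdet
  · linear_combination (-b) * hdet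

def MS : SL(2, ℝ) := ⟨!![0, -1; 1, 0], by rw [Matrix.det_fin_two_of]; norm_num⟩
noncomputable def MT : SL(2, ℝ) := ⟨!![1, Real.goldenRatio; 0, 1], by
  rw [Matrix.det_fin_two_of]; norm_num⟩

theorem Pr_S : Pr S0 MS := by
  have h1 : ∀ y, hx (aS y) = - hy y := add_extR (f := fun y => hx (aS y)) (g := fun y => - hy y)
    (fun x y => by rw [map_mul, hx_mul]) (fun x y => by rw [hy_mul]; ring)
    (by rw [aS_E, hx2, hyE]; ring) (by rw [aS_D, hx1, hyD]; ring)
    (by rw [aS_1, hx_inv, hxD, hy1]) (by rw [aS_2, hx_inv, hxF, hy2])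
  have h2 : ∀ y, hy (aS y) = hx y := add_extR (f := fun y => hy (aS y)) (g := hx)
    (fun x y => by rw [map_mul, hy_mul]) hx_mul
    (by rw [aS_E, hy2, hxE]) (by rw [aS_D, hy1, hxD])
    (by rw [aS_1, hy_inv, hyD, hx1]; ring) (by rw [aS_2, hy_inv, hyF, hx2]; ring)
  intro y
  show hx (aS y) = (!![0, -1; 1, 0] : Matrix (Fin 2) (Fin 2) ℝ) 0 0 * hx y +
    (!![0, -1; 1, 0] : Matrix (Fin 2) (Fin 2) ℝ) 0 1 * hy y ∧
    hy (aS y) = (!![0, -1; 1, 0] : Matrix (Fin 2) (Fin 2) ℝ) 1 0 * hx y +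
    (!![0, -1; 1, 0] : Matrix (Fin 2) (Fin 2) ℝ) 1 1 * hy y
  rw [h1, h2]
  simp

theorem Pr_T : Pr T0 MT := by
  have h1 : ∀ y, hx (aT y) = hx y + Real.goldenRatio * hy y :=
    add_extR (f := fun y => hx (aT y)) (g := fun y => hx y + Real.goldenRatio * hy y)
    (fun x y => by rw [map_mul, hx_mul]) (fun x y => by rw [hx_mul, hy_mul]; ring)
    (by rw [aT_E, hxE, hyE]; ring) (by rw [aT_D, hxD, hyD]; ring)
    (by rw [aT_1, hx_mul, hxE, hx1, hy1]; ring)
    (by rw [aT_2, hx_mul, hx_mul, hxF, hxD, hx2, hy2]; linear_combination -Real.goldenRatio_sq)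
  have h2 : ∀ y, hy (aT y) = hy y := add_extR (f := fun y => hy (aT y)) (g := hy)
    (fun x y => by rw [map_mul, hy_mul]) hy_mul
    (by rw [aT_E]) (by rw [aT_D])
    (by rw [aT_1, hy_mul, hyE]; ring) (by rw [aT_2, hy_mul, hy_mul, hyF, hyD]; ring)
  intro y
  show hx (aT y) = (!![1, Real.goldenRatio; 0, 1] : Matrix (Fin 2) (Fin 2) ℝ) 0 0 * hx y +
    (!![1, Real.goldenRatio; 0, 1] : Matrix (Fin 2) (Fin 2) ℝ) 0 1 * hy y ∧
    hy (aT y) = (!![1, Real.goldenRatio; 0, 1] : Matrix (Fin 2) (Fin 2) ℝ) 1 0 * hx y +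
    (!![1, Real.goldenRatio; 0, 1] : Matrix (Fin 2) (Fin 2) ℝ) 1 1 * hy y
  rw [h1, h2]
  simp

theorem Pr_exists (w : AutPlus 2) (hw : w ∈ Subgroup.closure {S0, T0}) :
    ∃ M : SL(2, ℝ), Pr w M := by
  induction hw using Subgroup.closure_induction with
  | mem x hx =>
    rcases hx with rfl | rfl
    · exact ⟨MS, Pr_S⟩
    · exact ⟨MT, Pr_T⟩
  | one => exact ⟨1, Pr_one⟩
  | mul x y _ _ hx hy =>
    obtain ⟨M, hM⟩ := hx
    obtain ⟨M', hM'⟩ := hy
    exact ⟨M * M', Pr_mul hM hM'⟩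
  | inv x _ hx =>
    obtain ⟨M, hM⟩ := hx
    exact ⟨M⁻¹, Pr_inv hM⟩

/-- the Veech group as an abstract group -/
abbrev GV : Subgroup (AutPlus 2) := Subgroup.closure {S0, T0}

noncomputable def Dfun (w : GV) : SL(2, ℝ) := (Pr_exists w.1 w.2).choose

theorem Dfun_spec (w : GV) : Pr w.1 (Dfun w) := (Pr_exists w.1 w.2).choose_spec

noncomputable def Dhom : GV →* SL(2, ℝ) :=
  MonoidHom.mk' Dfun (fun v w => Pr_unique (Dfun_spec (v * w)) (Pr_mul (Dfun_spec v) (Dfun_spec w)))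

def S1 : GV := ⟨S0, Subgroup.subset_closure (Or.inl rfl)⟩
def T1 : GV := ⟨T0, Subgroup.subset_closure (Or.inr rfl)⟩

theorem hecke : HeckeData GV S1 T1 Dhom where
  gen := by
    have h : ({S1, T1} : Set GV) = Subtype.val ⁻¹' ({S0, T0} : Set (AutPlus 2)) := by
      ext x
      simp only [Set.mem_insert_iff, Set.mem_singleton_iff, Set.mem_preimage, Subtype.ext_iff]
      rfl
    rw [h]
    exact Subgroup.closure_closure_coe_preimage
  S4 := Subtype.ext S4
  cent := Subtype.ext cent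
  U5 := Subtype.ext U5
  DS := congrArg Subtype.val (Pr_unique (Dfun_spec S1) Pr_S)
  DT := congrArg Subtype.val (Pr_unique (Dfun_spec T1) Pr_T)

theorem statementAut : StatementAut := by
  refine ⟨⟨S0, T0, ⟨aS_E, aS_F, aS_D, aS_1, aS_2⟩, ⟨aT_E, aT_F, aT_D, aT_1, aT_2⟩, twist, rot, hyp,
    S1, T1, Dhom, rfl, rfl, hecke⟩, ⟨⟨aκ, aκ_mem⟩, aκ_a0, aκ_b0, aκ_a1, aκ_b1⟩, fun K => ?_,
    fun k => ?_⟩
  · exact ⟨⟨aK K, aK_mem K⟩, aK_E K, aK_F K, aK_D K, aK_1 K, aK_2 K⟩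
  · exact ⟨⟨aG k, aG_mem k⟩, aG_E k, aG_F k, aG_D k, aG_1 k, aG_2 k⟩

end Run7.h181.MP33
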