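import Pool.Agent.Run7.h347.Iface

set_option autoImplicit false

/-! Piece AUT, part 1: homomorphisms and automorphisms of the genus two surface group. -/

open Run7.h347

namespace Run7.h181.MP33

abbrev SG : Type := SurfaceGroup 2

theorem rel0 : ga 0 * gb 0 * (ga 0)⁻¹ * (gb 0)⁻¹ * (ga 1 * gb 1 * (ga 1)⁻¹ * (gb 1)⁻¹) = (1 : SG) := by
  have h : toSurf 2 (relator 2) = 1 := by
    unfold toSurf
    exact PresentedGroup.one_of_mem (Set.mem_singleton _)
  unfold relator at h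
  simp only [List.ofFn_succ, List.ofFn_zero, List.prod_cons, List.prod_nil, Fin.succ_zero_eq_one,
    mul_one] at h
  unfold ga gb
  simp only [← map_inv, ← map_mul]
  exact h

theorem r1 : st1 * sF * st1⁻¹ = sE := by
  unfold st1 sF sE
  group

theorem r2 : st2 * (sE * sD) * st2⁻¹ = sF * sD := by
  have h := rel0
  unfold st2 sF sE sD
  have h2 : ga 0 * gb 0 * (ga 0)⁻¹ * (gb 0)⁻¹ = (gb 1 * ga 1 * (gb 1)⁻¹ * (ga 1)⁻¹ : SG) := by
    have := eq_inv_of_mul_eq_one_left h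
    rw [this]
    group
  have h3 : (gb 0 * ga 0 * (gb 0)⁻¹ : SG) = (gb 1 * ga 1 * (gb 1)⁻¹ * (ga 1)⁻¹)⁻¹ * ga 0 := by
    rw [← h2]
    group
  calc gb 0 * (gb 1 * ((gb 1)⁻¹ * ga 0)) * (gb 0)⁻¹ = (gb 0 * ga 0 * (gb 0)⁻¹ : SG) := by group
    _ = (gb 1 * ga 1 * (gb 1)⁻¹ * (ga 1)⁻¹)⁻¹ * ga 0 := h3
    _ = _ := by group

/-- The homomorphism with given values on `E, F, D, t₁, t₂`. -/
def homOf {H : Type*} [Group H] (e f d t u : H) (h1 : t * f * t⁻¹ = e)
    (h2 : u * (e * d) * u⁻¹ = f * d) : SG →* H :=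
  PresentedGroup.toGroup (f := Sum.elim ![e * d, t⁻¹] ![u, e]) (by
    intro r hr
    rw [Set.mem_singleton_iff] at hr
    subst hr
    simp only [relator, List.ofFn_succ, List.ofFn_zero, List.prod_cons, List.prod_nil, map_mul,
      map_inv, FreeGroup.lift_apply_of, Sum.elim_inl, Sum.elim_inr, map_one]
    simp only [Fin.succ_zero_eq_one, Matrix.cons_val_zero, Matrix.cons_val_one, mul_one]
    have h3 : u * (e * d)⁻¹ * u⁻¹ = (f * d)⁻¹ := by
      rw [← h2]; group
    have h4 : f = t⁻¹ * e * t := by rw [← h1]; group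
    calc e * d * u * (e * d)⁻¹ * u⁻¹ * (t⁻¹ * e * (t⁻¹)⁻¹ * e⁻¹)
        = e * d * (u * (e * d)⁻¹ * u⁻¹) * (t⁻¹ * e * t * e⁻¹) := by group
      _ = 1 := by rw [h3, h4]; group)

section
variable {H : Type*} [Group H] (e f d t u : H) (h1 : t * f * t⁻¹ = e)
    (h2 : u * (e * d) * u⁻¹ = f * d)

theorem homOf_a0 : homOf e f d t u h1 h2 (ga 0) = e * d := by
  unfold homOf ga toSurf
  erw [PresentedGroup.toGroup.of]
  rfl

theorem homOf_b0 : homOf e f d t u h1 h2 (gb 0) = u := by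
  unfold homOf gb toSurf
  erw [PresentedGroup.toGroup.of]
  rfl

theorem homOf_a1 : homOf e f d t u h1 h2 (ga 1) = t⁻¹ := by
  unfold homOf ga toSurf
  erw [PresentedGroup.toGroup.of]
  rfl

theorem homOf_b1 : homOf e f d t u h1 h2 (gb 1) = e := by
  unfold homOf gb toSurf
  erw [PresentedGroup.toGroup.of]
  rfl

theorem homOf_E : homOf e f d t u h1 h2 sE = e := homOf_b1 e f d t u h1 h2

theorem homOf_F : homOf e f d t u h1 h2 sF = f := by
  unfold sF
  rw [map_mul, map_mul, map_inv, homOf_a1, homOf_b1, ← h1]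
  group

theorem homOf_D : homOf e f d t u h1 h2 sD = d := by
  unfold sD
  rw [map_mul, map_inv, homOf_a0, homOf_b1]
  group

theorem homOf_t1 : homOf e f d t u h1 h2 st1 = t := by
  unfold st1
  rw [map_inv, homOf_a1, inv_inv]

theorem homOf_t2 : homOf e f d t u h1 h2 st2 = u := homOf_b0 e f d t u h1 h2

end

theorem a0_eq : (ga 0 : SG) = sE * sD := by unfold sE sD; group
theorem b0_eq : (gb 0 : SG) = st2 := rfl
theorem a1_eq : (ga 1 : SG) = st1⁻¹ := by unfold st1; group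
theorem b1_eq : (gb 1 : SG) = sE := rfl

theorem hom_ext0 {H : Type*} [Group H] {φ ψ : SG →* H} (h0 : φ (ga 0) = ψ (ga 0))
    (h1 : φ (gb 0) = ψ (gb 0)) (h2 : φ (ga 1) = ψ (ga 1)) (h3 : φ (gb 1) = ψ (gb 1)) : φ = ψ := by
  apply PresentedGroup.ext
  rintro (i | i)
  · fin_cases i
    · exact h0
    · exact h2
  · fin_cases i
    · exact h1
    · exact h3

theorem hom_ext {H : Type*} [Group H] {φ ψ : SG →* H} (hE : φ sE = ψ sE) (hD : φ sD = ψ sD)
    (h1 : φ st1 = ψ st1) (h2 : φ st2 = ψ st2) : φ = ψ := by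
  apply hom_ext0
  · rw [a0_eq, map_mul, map_mul, hE, hD]
  · exact h2
  · rw [a1_eq, map_inv, map_inv, h1]
  · exact hE

/-- An automorphism from two homomorphisms. -/
def autOf (φ ψ : SG →* SG) (h1 : ψ.comp φ = MonoidHom.id SG) (h2 : φ.comp ψ = MonoidHom.id SG) :
    MulAut SG := MonoidHom.toMulEquiv φ ψ h1 h2

theorem autOf_apply (φ ψ : SG →* SG) (h1 : ψ.comp φ = MonoidHom.id SG)
    (h2 : φ.comp ψ = MonoidHom.id SG) (x : SG) : autOf φ ψ h1 h2 x = φ x := rfl

/-- two automorphisms agreeing on the generators are equal -/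
theorem aut_ext {α β : MulAut SG} (hE : α sE = β sE) (hD : α sD = β sD)
    (h1 : α st1 = β st1) (h2 : α st2 = β st2) : α = β := by
  have : α.toMonoidHom = β.toMonoidHom := hom_ext hE hD h1 h2
  exact MulEquiv.ext fun x => DFunLike.congr_fun this x

/-! ### homology coordinates -/

/-- the coordinates of the homology class -/
def hc (s : Gen 2) (x : SG) : ℤ := (homology 2 x).toAdd s

theorem hc_mul (s : Gen 2) (x y : SG) : hc s (x * y) = hc s x + hc s y := by
  unfold hc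
  rw [map_mul]
  rfl

theorem hc_inv (s : Gen 2) (x : SG) : hc s x⁻¹ = - hc s x := by
  unfold hc
  rw [map_inv]
  rfl

theorem hc_one (s : Gen 2) : hc s (1 : SG) = 0 := by
  unfold hc
  rw [map_one]
  rfl

theorem hc_zpow (s : Gen 2) (x : SG) (n : ℤ) : hc s (x ^ n) = n * hc s x := by
  unfold hc
  rw [map_zpow, toAdd_zpow]
  simp

theorem hc_of (s r : Gen 2) : hc s (toSurf 2 (FreeGroup.of r)) = if r = s then 1 else 0 := by
  unfold hc homology toSurf
  erw [PresentedGroup.toGroup.of]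
  simp [Pi.single_apply, eq_comm]

theorem form_eq (x y : SG) : form (homology 2 x) (homology 2 y) =
    hc (Sum.inl 0) x * hc (Sum.inr 0) y - hc (Sum.inr 0) x * hc (Sum.inl 0) y +
    (hc (Sum.inl 1) x * hc (Sum.inr 1) y - hc (Sum.inr 1) x * hc (Sum.inl 1) y) := by
  unfold form hc
  rw [Fin.sum_univ_two]

/-- additive functions which agree on the generators are equal -/
theorem add_ext {f g : SG → ℤ} (hf : ∀ x y, f (x * y) = f x + f y)
    (hg : ∀ x y, g (x * y) = g x + g y) (hE : f sE = g sE) (hD : f sD = g sD)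
    (h1 : f st1 = g st1) (h2 : f st2 = g st2) (x : SG) : f x = g x := by
  have hf1 : f 1 = 0 := by have := hf 1 1; rw [mul_one] at this; omega
  have hg1 : g 1 = 0 := by have := hg 1 1; rw [mul_one] at this; omega
  let F : SG →* Multiplicative ℤ :=
    { toFun := fun x => Multiplicative.ofAdd (f x)
      map_one' := by rw [hf1]; rfl
      map_mul' := fun x y => by rw [hf]; rfl }
  let G : SG →* Multiplicative ℤ :=
    { toFun := fun x => Multiplicative.ofAdd (g x)
      map_one' := by rw [hg1]; rfl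
      map_mul' := fun x y => by rw [hg]; rfl }
  have hFG : F = G := hom_ext (congrArg Multiplicative.ofAdd hE) (congrArg Multiplicative.ofAdd hD)
    (congrArg Multiplicative.ofAdd h1) (congrArg Multiplicative.ofAdd h2)
  have := DFunLike.congr_fun hFG x
  exact Multiplicative.ofAdd.injective this

theorem hcE : hc (Sum.inl 0) sE = 0 ∧ hc (Sum.inr 0) sE = 0 ∧ hc (Sum.inl 1) sE = 0 ∧
    hc (Sum.inr 1) sE = 1 := by
  unfold sE gb
  simp [hc_of]

theorem hcF : hc (Sum.inl 0) sF = 0 ∧ hc (Sum.inr 0) sF = 0 ∧ hc (Sum.inl 1) sF = 0 ∧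
    hc (Sum.inr 1) sF = 1 := by
  unfold sF gb ga
  simp [hc_of, hc_mul, hc_inv]

theorem hcD : hc (Sum.inl 0) sD = 1 ∧ hc (Sum.inr 0) sD = 0 ∧ hc (Sum.inl 1) sD = 0 ∧
    hc (Sum.inr 1) sD = -1 := by
  unfold sD gb ga
  simp [hc_of, hc_mul, hc_inv]

theorem hct1 : hc (Sum.inl 0) st1 = 0 ∧ hc (Sum.inr 0) st1 = 0 ∧ hc (Sum.inl 1) st1 = -1 ∧
    hc (Sum.inr 1) st1 = 0 := by
  unfold st1 ga
  simp [hc_of, hc_inv]

theorem hct2 : hc (Sum.inl 0) st2 = 0 ∧ hc (Sum.inr 0) st2 = 1 ∧ hc (Sum.inl 1) st2 = 0 ∧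
    hc (Sum.inr 1) st2 = 0 := by
  unfold st2 gb
  simp [hc_of]

end Run7.h181.MP33
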