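import Pool.Agent.Run7.h181.MP33.AUT1

set_option autoImplicit false

/-! Piece AUT, part 2: the automorphisms. -/

open Run7.h347

namespace Run7.h181.MP33

theorem conj_rel {G : Type*} [Group G] {X Y L R : G} (h : L = R) (g : G)
    (hg : X * Y⁻¹ = g * (L * R⁻¹) * g⁻¹) : X = Y := by
  rw [h] at hg
  have : X * Y⁻¹ = 1 := by rw [hg]; group
  exact mul_inv_eq_one.1 this

theorem A1 : st1 * sF = sE * st1 := by
  rw [← r1]; group

theorem A2 : st2 * sE * sD = sF * sD * st2 := by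
  have h := r2
  calc st2 * sE * sD = st2 * (sE * sD) * st2⁻¹ * st2 := by group
    _ = _ := by rw [h]

/-- membership in `AutPlus` by the values on the generators, via a linear map on homology -/
theorem mem_plus {α : MulAut SG} (a b c d : SG → ℤ)
    (add : ∀ x y, a (x * y) = a x + a y ∧ b (x * y) = b x + b y ∧ c (x * y) = c x + c y ∧
      d (x * y) = d x + d y)
    (gens : ∀ z ∈ ({sE, sD, st1, st2} : Set SG), hc (Sum.inl 0) (α z) = a z ∧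
      hc (Sum.inr 0) (α z) = b z ∧ hc (Sum.inl 1) (α z) = c z ∧ hc (Sum.inr 1) (α z) = d z)
    (h : ∀ x y, a x * b y - b x * a y + (c x * d y - d x * c y) =
      hc (Sum.inl 0) x * hc (Sum.inr 0) y - hc (Sum.inr 0) x * hc (Sum.inl 0) y +
      (hc (Sum.inl 1) x * hc (Sum.inr 1) y - hc (Sum.inr 1) x * hc (Sum.inl 1) y)) :
    α ∈ AutPlus 2 := by
  have hadd : ∀ (s : Gen 2) (x y : SG), hc s (α (x * y)) = hc s (α x) + hc s (α y) :=
    fun s x y => by rw [map_mul, hc_mul]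
  have gE := gens sE (by simp)
  have gD := gens sD (by simp)
  have g1 := gens st1 (by simp)
  have g2 := gens st2 (by simp)
  have ha : ∀ x, hc (Sum.inl 0) (α x) = a x := add_ext (f := fun x => hc (Sum.inl 0) (α x))
    (hadd _) (fun x y => (add x y).1) gE.1 gD.1 g1.1 g2.1
  have hb : ∀ x, hc (Sum.inr 0) (α x) = b x := add_ext (f := fun x => hc (Sum.inr 0) (α x))
    (hadd _) (fun x y => (add x y).2.1) gE.2.1 gD.2.1 g1.2.1 g2.2.1
  have hc' : ∀ x, hc (Sum.inl 1) (α x) = c x := add_ext (f := fun x => hc (Sum.inl 1) (α x))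
    (hadd _) (fun x y => (add x y).2.2.1) gE.2.2.1 gD.2.2.1 g1.2.2.1 g2.2.2.1
  have hd : ∀ x, hc (Sum.inr 1) (α x) = d x := add_ext (f := fun x => hc (Sum.inr 1) (α x))
    (hadd _) (fun x y => (add x y).2.2.2) gE.2.2.2 gD.2.2.2 g1.2.2.2 g2.2.2.2
  intro x y
  rw [form_eq, form_eq, ha, ha, hb, hb, hc', hc', hd, hd, h]

/-! ### the rotation `S` -/

def fS : SG →* SG := homOf st2 (sF⁻¹ * st2 * sE) st1 sD⁻¹ sF⁻¹
  (conj_rel A2 (sF * sD)⁻¹ (by group)) (conj_rel A1 (sF⁻¹ * st2) (by group))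

def fS' : SG →* SG := homOf (sE⁻¹ * st2⁻¹ * sF) st2⁻¹ st1⁻¹ sD sE
  (conj_rel A2 (st2 * sE)⁻¹ (by group)) (conj_rel A1 (st2⁻¹ * st1⁻¹) (by group))

theorem fS_E : fS sE = st2 := homOf_E _ _ _ _ _ _ _
theorem fS_F : fS sF = sF⁻¹ * st2 * sE := homOf_F _ _ _ _ _ _ _
theorem fS_D : fS sD = st1 := homOf_D _ _ _ _ _ _ _
theorem fS_1 : fS st1 = sD⁻¹ := homOf_t1 _ _ _ _ _ _ _
theorem fS_2 : fS st2 = sF⁻¹ := homOf_t2 _ _ _ _ _ _ _
theorem fS'_E : fS' sE = sE⁻¹ * st2⁻¹ * sF := homOf_E _ _ _ _ _ _ _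
theorem fS'_F : fS' sF = st2⁻¹ := homOf_F _ _ _ _ _ _ _
theorem fS'_D : fS' sD = st1⁻¹ := homOf_D _ _ _ _ _ _ _
theorem fS'_1 : fS' st1 = sD := homOf_t1 _ _ _ _ _ _ _
theorem fS'_2 : fS' st2 = sE := homOf_t2 _ _ _ _ _ _ _

def aS : MulAut SG := autOf fS fS'
  (by apply hom_ext <;> simp only [MonoidHom.comp_apply, MonoidHom.id_apply, fS_E, fS_F, fS_D,
        fS_1, fS_2, fS'_E, fS'_F, fS'_D, fS'_1, fS'_2, map_mul, map_inv] <;> group)
  (by apply hom_ext <;> simp only [MonoidHom.comp_apply, MonoidHom.id_apply, fS_E, fS_F, fS_D,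
        fS_1, fS_2, fS'_E, fS'_F, fS'_D, fS'_1, fS'_2, map_mul, map_inv] <;> group)

theorem aS_E : aS sE = st2 := fS_E
theorem aS_F : aS sF = sF⁻¹ * st2 * sE := fS_F
theorem aS_D : aS sD = st1 := fS_D
theorem aS_1 : aS st1 = sD⁻¹ := fS_1
theorem aS_2 : aS st2 = sF⁻¹ := fS_2

theorem aS_mem : aS ∈ AutPlus 2 := by
  refine mem_plus (fun x => hc (Sum.inl 1) x) (fun x => hc (Sum.inl 0) x + hc (Sum.inr 1) x)
    (fun x => - hc (Sum.inl 0) x) (fun x => - hc (Sum.inr 0) x - hc (Sum.inl 1) x) ?_ ?_ ?_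
  · intro x y
    simp only [hc_mul]
    refine ⟨?_, ?_, ?_, ?_⟩ <;> first | trivial | ring
  · rintro z (rfl | rfl | rfl | rfl) <;>
      simp [hc_mul, hc_inv, aS_E, aS_D, aS_1, aS_2, hcE, hcF, hcD, hct1, hct2]
  · intro x y; ring

/-! ### the twist `T` -/

def fT (e : ℤ) : SG →* SG := homOf sE sF sD (sE ^ e * st1) ((sF * sD) ^ e * st2)
  (by
    calc sE ^ e * st1 * sF * (sE ^ e * st1)⁻¹ = sE ^ e * (st1 * sF * st1⁻¹) * (sE ^ e)⁻¹ := by group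
      _ = sE := by rw [r1]; group)
  (by
    calc (sF * sD) ^ e * st2 * (sE * sD) * ((sF * sD) ^ e * st2)⁻¹
        = (sF * sD) ^ e * (st2 * (sE * sD) * st2⁻¹) * ((sF * sD) ^ e)⁻¹ := by
          generalize (sF * sD : SG) ^ e = g
          group
      _ = sF * sD := by
          rw [r2]
          generalize (sF * sD : SG) = g
          group)

theorem fT_E (e : ℤ) : fT e sE = sE := homOf_E _ _ _ _ _ _ _
theorem fT_F (e : ℤ) : fT e sF = sF := homOf_F _ _ _ _ _ _ _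
theorem fT_D (e : ℤ) : fT e sD = sD := homOf_D _ _ _ _ _ _ _
theorem fT_1 (e : ℤ) : fT e st1 = sE ^ e * st1 := homOf_t1 _ _ _ _ _ _ _
theorem fT_2 (e : ℤ) : fT e st2 = (sF * sD) ^ e * st2 := homOf_t2 _ _ _ _ _ _ _

theorem fT_comp (e : ℤ) : (fT (-e)).comp (fT e) = MonoidHom.id SG := by
  apply hom_ext <;> simp only [MonoidHom.comp_apply, MonoidHom.id_apply, fT_E, fT_F, fT_D,
        fT_1, fT_2, map_mul, map_zpow] <;> group

def aT : MulAut SG := autOf (fT 1) (fT (-1)) (fT_comp 1)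
  (by have := fT_comp (-1); rwa [neg_neg] at this)

theorem aT_E : aT sE = sE := fT_E 1
theorem aT_F : aT sF = sF := fT_F 1
theorem aT_D : aT sD = sD := fT_D 1
theorem aT_1 : aT st1 = sE * st1 := (fT_1 1).trans (by rw [zpow_one])
theorem aT_2 : aT st2 = sF * sD * st2 := (fT_2 1).trans (by rw [zpow_one])

theorem aT_mem : aT ∈ AutPlus 2 := by
  refine mem_plus (fun x => hc (Sum.inl 0) x + hc (Sum.inr 0) x) (fun x => hc (Sum.inr 0) x)
    (fun x => hc (Sum.inl 1) x) (fun x => hc (Sum.inr 1) x - hc (Sum.inl 1) x) ?_ ?_ ?_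
  · intro x y
    simp only [hc_mul]
    refine ⟨?_, ?_, ?_, ?_⟩ <;> first | trivial | ring
  · rintro z (rfl | rfl | rfl | rfl) <;>
      simp [hc_mul, hc_inv, aT_E, aT_D, aT_1, aT_2, hcE, hcF, hcD, hct1, hct2]
  · intro x y; ring

/-! ### the two families -/

def fK (K : ℤ) : SG →* SG := homOf sE (sD ^ K * sF * sD ^ (-K)) sD (st1 * sD ^ (-K)) (sD ^ K * st2)
  (by
    calc st1 * sD ^ (-K) * (sD ^ K * sF * sD ^ (-K)) * (st1 * sD ^ (-K))⁻¹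
        = st1 * sF * st1⁻¹ := by group
      _ = sE := r1)
  (by
    calc sD ^ K * st2 * (sE * sD) * (sD ^ K * st2)⁻¹
        = sD ^ K * (st2 * (sE * sD) * st2⁻¹) * (sD ^ K)⁻¹ := by group
      _ = _ := by rw [r2]; group)

theorem fK_E (K : ℤ) : fK K sE = sE := homOf_E _ _ _ _ _ _ _
theorem fK_F (K : ℤ) : fK K sF = sD ^ K * sF * sD ^ (-K) := homOf_F _ _ _ _ _ _ _
theorem fK_D (K : ℤ) : fK K sD = sD := homOf_D _ _ _ _ _ _ _
theorem fK_1 (K : ℤ) : fK K st1 = st1 * sD ^ (-K) := homOf_t1 _ _ _ _ _ _ _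
theorem fK_2 (K : ℤ) : fK K st2 = sD ^ K * st2 := homOf_t2 _ _ _ _ _ _ _

theorem fK_comp (K : ℤ) : (fK (-K)).comp (fK K) = MonoidHom.id SG := by
  apply hom_ext <;> simp only [MonoidHom.comp_apply, MonoidHom.id_apply, fK_E, fK_F, fK_D,
        fK_1, fK_2, map_mul, map_zpow] <;> group

def aK (K : ℤ) : MulAut SG := autOf (fK K) (fK (-K)) (fK_comp K)
  (by have := fK_comp (-K); rwa [neg_neg] at this)

theorem aK_E (K : ℤ) : aK K sE = sE := fK_E K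
theorem aK_F (K : ℤ) : aK K sF = sD ^ K * sF * sD ^ (-K) := fK_F K
theorem aK_D (K : ℤ) : aK K sD = sD := fK_D K
theorem aK_1 (K : ℤ) : aK K st1 = st1 * sD ^ (-K) := fK_1 K
theorem aK_2 (K : ℤ) : aK K st2 = sD ^ K * st2 := fK_2 K

theorem aK_mem (K : ℤ) : aK K ∈ AutPlus 2 := by
  refine mem_plus (fun x => hc (Sum.inl 0) x + K * hc (Sum.inr 0) x + K * hc (Sum.inl 1) x)
    (fun x => hc (Sum.inr 0) x)
    (fun x => hc (Sum.inl 1) x)
    (fun x => hc (Sum.inr 1) x - K * hc (Sum.inr 0) x - K * hc (Sum.inl 1) x) ?_ ?_ ?_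
  · intro x y
    simp only [hc_mul]
    refine ⟨?_, ?_, ?_, ?_⟩ <;> first | trivial | ring
  · rintro z (rfl | rfl | rfl | rfl) <;>
      simp only [hc_mul, hc_zpow, aK_E, aK_D, aK_1, aK_2, hcE, hcF, hcD, hct1, hct2] <;>
      refine ⟨?_, ?_, ?_, ?_⟩ <;> first | trivial | ring
  · intro x y; ring

theorem gk_conj (k : ℤ) : (sE⁻¹ * (sE * sF⁻¹) ^ k * sE : SG) = (sF⁻¹ * sE) ^ k := by
  have h : (sF⁻¹ * sE : SG) = sE⁻¹ * (sE * sF⁻¹) * sE⁻¹⁻¹ := by group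
  rw [h, conj_zpow, inv_inv]

def fG (k : ℤ) : SG →* SG := homOf sE sF (sE⁻¹ * (sE * sF⁻¹) ^ k * sE * sD * (sE * sF⁻¹) ^ (-k)) st1
    ((sE * sF⁻¹) ^ k * st2 * (sE * sF⁻¹) ^ (-k)) r1
  (by
    have hγ : (sF * sE⁻¹ : SG) = (sE * sF⁻¹)⁻¹ := by group
    calc (sE * sF⁻¹) ^ k * st2 * (sE * sF⁻¹) ^ (-k) *
          (sE * (sE⁻¹ * (sE * sF⁻¹) ^ k * sE * sD * (sE * sF⁻¹) ^ (-k))) *
          ((sE * sF⁻¹) ^ k * st2 * (sE * sF⁻¹) ^ (-k))⁻¹
        = (sE * sF⁻¹) ^ k * (st2 * (sE * sD) * st2⁻¹) * (sE * sF⁻¹) ^ (-k) := by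
          generalize (sE * sF⁻¹ : SG) = g
          group
      _ = (sE * sF⁻¹) ^ k * (sF * sD) * (sE * sF⁻¹) ^ (-k) := by rw [r2]
      _ = (sE * sF⁻¹) ^ k * (sE * sF⁻¹)⁻¹ * sE * sD * (sE * sF⁻¹) ^ (-k) := by
          congr 1
          have : (sF : SG) = (sE * sF⁻¹)⁻¹ * sE := by group
          nth_rewrite 2 [this]
          simp only [mul_assoc]
      _ = (sF * sE⁻¹) * (sE * sF⁻¹) ^ k * sE * sD * (sE * sF⁻¹) ^ (-k) := by
          rw [hγ, (((Commute.refl (sE * sF⁻¹ : SG)).zpow_left k).inv_right).eq]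
      _ = _ := by
          generalize (sE * sF⁻¹ : SG) ^ k = g
          generalize (sE * sF⁻¹ : SG) ^ (-k) = g'
          group)

theorem fG_E (k : ℤ) : fG k sE = sE := homOf_E _ _ _ _ _ _ _
theorem fG_F (k : ℤ) : fG k sF = sF := homOf_F _ _ _ _ _ _ _
theorem fG_D (k : ℤ) : fG k sD = sE⁻¹ * (sE * sF⁻¹) ^ k * sE * sD * (sE * sF⁻¹) ^ (-k) :=
  homOf_D _ _ _ _ _ _ _
theorem fG_1 (k : ℤ) : fG k st1 = st1 := homOf_t1 _ _ _ _ _ _ _
theorem fG_2 (k : ℤ) : fG k st2 = (sE * sF⁻¹) ^ k * st2 * (sE * sF⁻¹) ^ (-k) :=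
  homOf_t2 _ _ _ _ _ _ _

theorem fG_comp (k : ℤ) : (fG (-k)).comp (fG k) = MonoidHom.id SG := by
  apply hom_ext <;> simp only [MonoidHom.comp_apply, MonoidHom.id_apply, fG_E, fG_F, fG_D,
        fG_1, fG_2, map_mul, map_zpow, map_inv] <;> generalize (sE * sF⁻¹ : SG) = g <;> group

def aG (k : ℤ) : MulAut SG := autOf (fG k) (fG (-k)) (fG_comp k)
  (by have := fG_comp (-k); rwa [neg_neg] at this)

theorem aG_E (k : ℤ) : aG k sE = sE := fG_E k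
theorem aG_F (k : ℤ) : aG k sF = sF := fG_F k
theorem aG_D (k : ℤ) : aG k sD = sE⁻¹ * (sE * sF⁻¹) ^ k * sE * sD * (sE * sF⁻¹) ^ (-k) := fG_D k
theorem aG_1 (k : ℤ) : aG k st1 = st1 := fG_1 k
theorem aG_2 (k : ℤ) : aG k st2 = (sE * sF⁻¹) ^ k * st2 * (sE * sF⁻¹) ^ (-k) := fG_2 k

theorem aG_mem (k : ℤ) : aG k ∈ AutPlus 2 := by
  refine mem_plus (fun x => hc (Sum.inl 0) x) (fun x => hc (Sum.inr 0) x)
    (fun x => hc (Sum.inl 1) x) (fun x => hc (Sum.inr 1) x) ?_ ?_ ?_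
  · intro x y
    simp only [hc_mul]
    refine ⟨?_, ?_, ?_, ?_⟩ <;> first | trivial | ring
  · rintro z (rfl | rfl | rfl | rfl) <;>
      simp only [hc_mul, hc_inv, hc_zpow, aG_E, aG_D, aG_1, aG_2, hcE, hcF, hcD, hct1, hct2] <;>
      refine ⟨?_, ?_, ?_, ?_⟩ <;> first | trivial | ring
  · intro x y; ring

/-! ### `κ` -/

/-- The homomorphism with given values on the standard generators. -/
def homOf0 {H : Type*} [Group H] (a b c d : H)
    (h : a * b * a⁻¹ * b⁻¹ * (c * d * c⁻¹ * d⁻¹) = 1) : SG →* H :=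
  PresentedGroup.toGroup (f := Sum.elim ![a, c] ![b, d]) (by
    intro r hr
    rw [Set.mem_singleton_iff] at hr
    subst hr
    simp only [relator, List.ofFn_succ, List.ofFn_zero, List.prod_cons, List.prod_nil, map_mul,
      map_inv, FreeGroup.lift_apply_of, Sum.elim_inl, Sum.elim_inr, map_one]
    simp only [Fin.succ_zero_eq_one, Matrix.cons_val_zero, Matrix.cons_val_one, mul_one]
    exact h)

section
variable {H : Type*} [Group H] (a b c d : H) (h : a * b * a⁻¹ * b⁻¹ * (c * d * c⁻¹ * d⁻¹) = 1)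

theorem homOf0_a0 : homOf0 a b c d h (ga 0) = a := by
  unfold homOf0 ga toSurf
  erw [PresentedGroup.toGroup.of]
  rfl

theorem homOf0_b0 : homOf0 a b c d h (gb 0) = b := by
  unfold homOf0 gb toSurf
  erw [PresentedGroup.toGroup.of]
  rfl

theorem homOf0_a1 : homOf0 a b c d h (ga 1) = c := by
  unfold homOf0 ga toSurf
  erw [PresentedGroup.toGroup.of]
  rfl

theorem homOf0_b1 : homOf0 a b c d h (gb 1) = d := by
  unfold homOf0 gb toSurf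
  erw [PresentedGroup.toGroup.of]
  rfl
end

def fκ : SG →* SG := homOf0 (gb 1)⁻¹ (gb 1 * ga 1 * (gb 1)⁻¹) (ga 0) (gb 0)
  (conj_rel rel0 (ga 1 * gb 1 * (ga 1)⁻¹ * (gb 1)⁻¹) (by group))

def fκ' : SG →* SG := homOf0 (ga 1) (gb 1) (ga 0 * gb 0 * (ga 0)⁻¹) (ga 0)⁻¹
  (conj_rel rel0 (ga 1 * gb 1 * (ga 1)⁻¹ * (gb 1)⁻¹) (by group))

def aκ : MulAut SG := autOf fκ fκ'
  (by apply hom_ext0 <;> simp only [MonoidHom.comp_apply, MonoidHom.id_apply, fκ, fκ', homOf0_a0,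
        homOf0_b0, homOf0_a1, homOf0_b1, map_mul, map_inv] <;> group)
  (by apply hom_ext0 <;> simp only [MonoidHom.comp_apply, MonoidHom.id_apply, fκ, fκ', homOf0_a0,
        homOf0_b0, homOf0_a1, homOf0_b1, map_mul, map_inv] <;> group)

theorem fκ_a0 : fκ (ga 0) = (gb 1)⁻¹ := homOf0_a0 _ _ _ _ _
theorem fκ_b0 : fκ (gb 0) = gb 1 * ga 1 * (gb 1)⁻¹ := homOf0_b0 _ _ _ _ _
theorem fκ_a1 : fκ (ga 1) = ga 0 := homOf0_a1 _ _ _ _ _
theorem fκ_b1 : fκ (gb 1) = gb 0 := homOf0_b1 _ _ _ _ _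
theorem aκ_a0 : aκ (ga 0) = (gb 1)⁻¹ := fκ_a0
theorem aκ_b0 : aκ (gb 0) = gb 1 * ga 1 * (gb 1)⁻¹ := fκ_b0
theorem aκ_a1 : aκ (ga 1) = ga 0 := fκ_a1
theorem aκ_b1 : aκ (gb 1) = gb 0 := fκ_b1

theorem hc_ga (s : Gen 2) (i : Fin 2) : hc s (ga i) = if Sum.inl i = s then 1 else 0 := hc_of _ _
theorem hc_gb (s : Gen 2) (i : Fin 2) : hc s (gb i) = if Sum.inr i = s then 1 else 0 := hc_of _ _

theorem aκ_mem : aκ ∈ AutPlus 2 := by
  refine mem_plus (fun x => hc (Sum.inl 1) x) (fun x => hc (Sum.inr 1) x)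
    (fun x => hc (Sum.inr 0) x) (fun x => - hc (Sum.inl 0) x) ?_ ?_ ?_
  · intro x y
    simp only [hc_mul]
    refine ⟨?_, ?_, ?_, ?_⟩ <;> first | trivial | ring
  · rintro z (rfl | rfl | rfl | rfl) <;>
      simp [sE, sD, st1, st2, hc_mul, hc_inv, aκ_a0, aκ_b0, aκ_a1, aκ_b1, hc_ga, hc_gb]
  · intro x y; ring

end Run7.h181.MP33
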