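import Pool.Agent.Run7.h181.MP33.AUT2

set_option autoImplicit false

/-! Piece AUT, part 3: relations between the automorphisms. -/

open Run7.h347
open scoped MatrixGroups

namespace Run7.h181.MP33

theorem pent0 : pent 0 = sF⁻¹ * st2 := by
  show ga 1 * (gb 1)⁻¹ * (ga 1)⁻¹ * gb 0 = _
  unfold sF st2; group

theorem pent1 : pent 1 = st1 := rfl

theorem pent2 : pent 2 = st1⁻¹ * sE := by
  show ga 1 * gb 1 = _
  unfold st1 sE; group

theorem pent3 : pent 3 = sD * st2⁻¹ := rfl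

theorem pent4 : pent 4 = sD⁻¹ := by
  show (ga 0)⁻¹ * gb 1 = _
  unfold sD; group

/-! ### second iterates of `S` -/

theorem aSS_E : aS (aS sE) = sF⁻¹ := by rw [aS_E, aS_2]
theorem aSS_D : aS (aS sD) = sD⁻¹ := by rw [aS_D, aS_1]
theorem aSS_1 : aS (aS st1) = st1⁻¹ := by rw [aS_1, map_inv, aS_D]
theorem aSS_2 : aS (aS st2) = sE⁻¹ * st2⁻¹ * sF := by rw [aS_2, map_inv, aS_F]; group
theorem aSS_F : aS (aS sF) = sE⁻¹ := by
  rw [aS_F, map_mul, map_mul, map_inv, aS_F, aS_E, aS_2]; group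

theorem A1' : st1⁻¹ * sE * st1 = sF := by
  rw [mul_assoc, ← A1]; group

/-! ### `U = T S` -/

theorem U_E : aT (aS sE) = sF * sD * st2 := by rw [aS_E, aT_2]
theorem U_D : aT (aS sD) = sE * st1 := by rw [aS_D, aT_1]
theorem U_1 : aT (aS st1) = sD⁻¹ := by rw [aS_1, map_inv, aT_D]
theorem U_2 : aT (aS st2) = sF⁻¹ := by rw [aS_2, map_inv, aT_F]
theorem U_F : aT (aS sF) = sD * st2 * sE := by
  rw [aS_F, map_mul, map_mul, map_inv, aT_F, aT_2, aT_E]; group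

def q : Fin 5 → SG := ![st2 * sE, sD, st2⁻¹ * sD⁻¹, st1⁻¹ * sE⁻¹, st1]

theorem aS_q (i : Fin 5) : aS (q i) = pent i := by
  fin_cases i
  · show aS (st2 * sE) = pent 0
    rw [pent0, map_mul, aS_2, aS_E]
  · show aS sD = pent 1
    rw [pent1, aS_D]
  · show aS (st2⁻¹ * sD⁻¹) = pent 2
    rw [pent2, map_mul, map_inv, map_inv, aS_2, aS_D, ← A1']
    group
  · show aS (st1⁻¹ * sE⁻¹) = pent 3
    rw [pent3, map_mul, map_inv, map_inv, aS_1, aS_E]
    group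
  · show aS st1 = pent 4
    rw [pent4, aS_1]

theorem U_q (i : Fin 5) : aT (aS (aT (aS (q (i + 1))))) = q i := by
  fin_cases i
  · show aT (aS (aT (aS sD))) = st2 * sE
    rw [U_D, map_mul, map_mul, U_E, U_1]
    exact conj_rel A2.symm 1 (by group)
  · show aT (aS (aT (aS (st2⁻¹ * sD⁻¹)))) = sD
    simp only [map_mul, map_inv, U_E, U_D, U_1, U_2, U_F]
    exact conj_rel A2 sD (by group)
  · show aT (aS (aT (aS (st1⁻¹ * sE⁻¹)))) = st2⁻¹ * sD⁻¹
    simp only [map_mul, map_inv, U_E, U_D, U_1, U_2, U_F]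
    exact conj_rel A1 sE (by group)
  · show aT (aS (aT (aS st1))) = st1⁻¹ * sE⁻¹
    simp only [map_mul, map_inv, U_E, U_D, U_1, U_2, U_F]
    group
  · show aT (aS (aT (aS (st2 * sE)))) = st1
    simp only [map_mul, map_inv, U_E, U_D, U_1, U_2, U_F]
    exact conj_rel A1.symm 1 (by group)

def S0 : AutPlus 2 := ⟨aS, aS_mem⟩
def T0 : AutPlus 2 := ⟨aT, aT_mem⟩

theorem rot : IsRotation (S0 * (T0 * S0)⁻¹ * (T0 * S0)⁻¹ * S0⁻¹) := by
  intro i
  show aS ((aT * aS)⁻¹ ((aT * aS)⁻¹ (aS⁻¹ (pent i)))) = pent (i + 1)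
  rw [← aS_q i, MulAut.inv_apply_self, ← U_q i, ← aS_q (i + 1)]
  congr 1
  have h : ∀ x, (aT * aS)⁻¹ (aT (aS x)) = x := fun x => MulAut.inv_apply_self _ (aT * aS) x
  rw [h, h]

theorem twist : IsTwist T0 := by
  refine ⟨?_, ?_, ?_, ?_, ?_⟩
  · show aT (pent 4) = pent 4
    rw [pent4, map_inv, aT_D]
  · show aT (pent 0) = _
    rw [pent0, pent1, pent2, pent4, map_mul, map_inv, aT_F, aT_2]
    exact conj_rel A2.symm sF⁻¹ (by group)
  · show aT (pent 1) = _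
    rw [pent1, pent2, aT_1]
    group
  · show aT (pent 2) = _
    rw [pent1, pent2, map_mul, map_inv, aT_1, aT_E]
    group
  · show aT (pent 3) = _
    rw [pent1, pent2, pent3, pent4, map_mul, map_inv, aT_2, aT_D, A1']
    group

theorem hyp : IsHyp (S0 ^ 2) := by
  intro i
  show (aS ^ 2) (pent i) = _
  rw [pow_two, MulAut.mul_apply]
  fin_cases i
  · show aS (aS (pent 0)) = (pent 0)⁻¹
    rw [pent0]
    simp only [map_mul, map_inv, aSS_E, aSS_F, aSS_D, aSS_1, aSS_2]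
    group
  · show aS (aS (pent 1)) = (pent 1)⁻¹
    rw [pent1, aSS_1]
  · show aS (aS (pent 2)) = (pent 2)⁻¹
    rw [pent2]
    simp only [map_mul, map_inv, aSS_E, aSS_F, aSS_D, aSS_1, aSS_2]
    rw [← A1']
    group
  · show aS (aS (pent 3)) = (pent 3)⁻¹
    rw [pent3]
    simp only [map_mul, map_inv, aSS_E, aSS_F, aSS_D, aSS_1, aSS_2]
    exact conj_rel A2 (sF * sD)⁻¹ (by group)
  · show aS (aS (pent 4)) = (pent 4)⁻¹
    rw [pent4]
    simp only [map_inv, aSS_D]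

theorem S4 : S0 ^ 4 = 1 := by
  apply Subtype.ext
  show aS ^ 4 = 1
  have h : aS ^ 4 = aS * aS * (aS * aS) := by
    simp only [pow_succ, pow_zero, one_mul, mul_assoc]
  rw [h]
  apply aut_ext <;> simp only [MulAut.mul_apply, MulAut.one_apply, map_mul, map_inv, aSS_E, aSS_F,
    aSS_D, aSS_1, aSS_2] <;> group

theorem cent : S0 ^ 2 * T0 = T0 * S0 ^ 2 := by
  apply Subtype.ext
  show aS ^ 2 * aT = aT * aS ^ 2
  rw [pow_two]
  apply aut_ext
  · simp only [MulAut.mul_apply, map_mul, map_inv, aSS_E, aT_E, aT_F]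
  · simp only [MulAut.mul_apply, map_mul, map_inv, aSS_D, aT_D]
  · simp only [MulAut.mul_apply, map_mul, map_inv, aSS_E, aSS_1, aT_1]
    rw [← A1']
    group
  · simp only [MulAut.mul_apply, map_mul, map_inv, aSS_F, aSS_2, aSS_D, aT_2, aT_F, aT_E]
    exact conj_rel A2.symm (sE⁻¹ * sD⁻¹ * sE⁻¹ * st2⁻¹) (by group)

theorem U5 : (T0 * S0) ^ 5 = S0 ^ 2 := by
  apply Subtype.ext
  show (aT * aS) ^ 5 = aS ^ 2
  have h : (aT * aS) ^ 5 = aT * aS * (aT * aS * (aT * aS * (aT * aS * (aT * aS)))) := by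
    simp only [pow_succ, pow_zero, one_mul, mul_assoc]
  have a1 : aT (aS (st1⁻¹ * sE⁻¹)) = sD * st2⁻¹ * sD⁻¹ * sF⁻¹ := by
    simp only [map_mul, map_inv, U_E, U_D, U_1, U_2, U_F]
    group
  have a2 : aT (aS (sD * st2⁻¹ * sD⁻¹ * sF⁻¹)) = st2⁻¹ * sD⁻¹ := by
    simp only [map_mul, map_inv, U_E, U_D, U_1, U_2, U_F]
    exact conj_rel A1 sE (by group)
  have a3 : aT (aS (st2⁻¹ * sD⁻¹)) = st1⁻¹ := by
    simp only [map_mul, map_inv, U_E, U_D, U_1, U_2, U_F]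
    exact conj_rel A1 st1⁻¹ (by group)
  have b1 : aT (aS (sE * st1)) = st2 * sE := by
    simp only [map_mul, map_inv, U_E, U_D, U_1, U_2, U_F]
    exact conj_rel A2.symm 1 (by group)
  have b2 : aT (aS (st2 * sE)) = sD * st2 := by
    simp only [map_mul, map_inv, U_E, U_D, U_1, U_2, U_F]
    group
  have b3 : aT (aS (sD * st2)) = st1 := by
    simp only [map_mul, map_inv, U_E, U_D, U_1, U_2, U_F]
    exact conj_rel A1.symm 1 (by group)
  have c1 : aT (aS sF⁻¹) = sE⁻¹ * st2⁻¹ * sD⁻¹ := by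
    simp only [map_mul, map_inv, U_E, U_D, U_1, U_2, U_F]
    group
  have c2 : aT (aS (sE⁻¹ * st2⁻¹ * sD⁻¹)) = st2⁻¹ * sD⁻¹ * st1⁻¹ * sE⁻¹ := by
    simp only [map_mul, map_inv, U_E, U_D, U_1, U_2, U_F]
    group
  have c3 : aT (aS (st2⁻¹ * sD⁻¹ * st1⁻¹ * sE⁻¹)) = st1⁻¹ * sD * st2⁻¹ * sD⁻¹ * sF⁻¹ := by
    simp only [map_mul, map_inv, U_E, U_D, U_1, U_2, U_F]
    exact conj_rel A1 st1⁻¹ (by group)
  have c4 : aT (aS (st1⁻¹ * sD * st2⁻¹ * sD⁻¹ * sF⁻¹)) = sE⁻¹ * st2⁻¹ * sF := by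
    have : (sE⁻¹ * st2⁻¹ * sF : SG) = sD * st2⁻¹ * sD⁻¹ :=
      conj_rel A2.symm (sE⁻¹ * st2⁻¹) (by group)
    rw [this]
    simp only [map_mul, map_inv, U_E, U_D, U_1, U_2, U_F]
    exact conj_rel A1 (sD * sE) (by group)
  have d1 : aT (aS (sF * sD * st2)) = sD * st2 * sE * st1 := by
    simp only [map_mul, map_inv, U_E, U_D, U_1, U_2, U_F]
    exact conj_rel A1.symm (sD * st2 * sE) (by group)
  have d2 : aT (aS (sD * st2 * sE * st1)) = sE * st1 * sD * st2 * sD⁻¹ := by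
    simp only [map_mul, map_inv, U_E, U_D, U_1, U_2, U_F]
    group
  have d3 : aT (aS (sE * st1 * sD * st2 * sD⁻¹)) = st2 := by
    simp only [map_mul, map_inv, U_E, U_D, U_1, U_2, U_F]
    have h1 : (sE * st1 * sF⁻¹ * (st1⁻¹ * sE⁻¹) : SG) = sE⁻¹ := by
      rw [← A1']
      group
    have h2 : (sF * sD * st2 * sD⁻¹ : SG) = st2 * sE := by
      rw [← A2]
      group
    calc _ = (sF * sD * st2 * sD⁻¹ : SG) * (sE * st1 * sF⁻¹ * (st1⁻¹ * sE⁻¹)) := by group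
      _ = st2 := by rw [h1, h2]; group
  rw [h, pow_two]
  apply aut_ext
  · simp only [MulAut.mul_apply, aSS_E]
    rw [U_E, d1, d2, d3, U_2]
  · simp only [MulAut.mul_apply, aSS_D]
    rw [U_D, b1, b2, b3, U_1]
  · simp only [MulAut.mul_apply, aSS_1]
    rw [U_1, map_inv, map_inv, U_D, mul_inv_rev, a1, a2, a3]
  · simp only [MulAut.mul_apply, aSS_2]
    rw [U_2, c1, c2, c3, c4]

end Run7.h181.MP33
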